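import Pool.Agent.H58.SO.Basic

/-!
# A maximal set of identified types
-/

set_option autoImplicit false
set_option linter.unusedVariables false

namespace Pool.Agent.H36.SO

open Pool.Agent.H68.BP Pool.Agent.H58.SF Pool.Agent.H53.GC Pool.Agent.H53.NR Pool.Agent.H58.SO
open Classical

/-- the types of the vertices which are identified by `m` -/
def idT {V X Θ : Type} [LinearOrder V] {M : ℕ} (B : Bs V X Θ M)
    (m : X × Ordering → X × Ordering) : Set Θ :=
  {s | (m (B.fr s s, Ordering.lt)).2 = Ordering.eq}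

theorem pf_MAX : T_MAX := by
  intro σ V X Θ _ M B 𝔸 _
  have := B.finT
  -- the possible sizes
  let P : ℕ → Prop := fun k => ∃ m : X × Ordering → X × Ordering, UM B B 𝔸 𝔸 m ∧
    (∀ s, tm B B m s = s) ∧ (idT B m).ncard = k
  have h0 : ∃ k, P k := by
    refine ⟨_, id, ?_, ?_, rfl⟩
    · intro s x hx
      exact ⟨x, hx, fun a b => rfl⟩
    · intro s
      exact B.frL s s
  have hb : ∀ k, P k → k ≤ Nat.card Θ := by
    rintro k ⟨m, -, -, rfl⟩
    rw [← Set.ncard_univ]
    exact Set.ncard_le_ncard (Set.subset_univ _) (Set.toFinite _)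
  obtain ⟨k, hk⟩ := h0
  have h1 : P (Nat.findGreatest P (Nat.card Θ)) := Nat.findGreatest_spec (hb k hk) hk
  have h2 : ∀ l, P l → l ≤ Nat.findGreatest P (Nat.card Θ) := fun l hl =>
    Nat.le_findGreatest (hb l hl) hl
  obtain ⟨m, hm, ht, hc⟩ := h1
  refine ⟨m, idT B m, hm, ht, fun s hs => hs, ?_⟩
  intro m' hm' ht' hsub s hs
  have h3 : (idT B m').ncard ≤ (idT B m).ncard := by
    rw [hc]
    exact h2 _ ⟨m', hm', ht', rfl⟩
  have h4 : idT B m = idT B m' :=
    Set.eq_of_subset_of_ncard_le (fun s hs => hsub s hs) h3 (Set.toFinite _)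
  rw [h4]
  exact hs

end Pool.Agent.H36.SO
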