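import Pool.Agent.H58.SO.Basic

/-!
# Restriction of a coloured linear order to a set of types of vertices
-/

set_option autoImplicit false
set_option linter.unusedVariables false

namespace Pool.Agent.H36.SO

open Pool.Agent.H68.BP Pool.Agent.H58.SF Pool.Agent.H53.GC Pool.Agent.H53.NR Pool.Agent.H58.SO
open Classical

section sub

variable {V X Θ : Type} [LinearOrder V] {M : ℕ} (B : Bs V X Θ M) (S : Set Θ)

/-- the vertices whose types are in `S` -/
abbrev VS : Type := {v : V // B.vt v ∈ S}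

/-- the colours whose types are in `S` -/
abbrev XS : Type := {t : X // B.L t ∈ S ∧ B.Rt t ∈ S}

/-- the restricted colouring -/
def cS (x y : VS B S) : XS B S :=
  ⟨B.c x.1 y.1, by
    rw [B.left, B.right]
    exact ⟨x.2, y.2⟩⟩

/-- the restricted reversal -/
def invS (t : XS B S) : XS B S :=
  ⟨B.inv t.1, by
    rw [B.L_inv, B.Rt_inv]
    exact ⟨t.2.2, t.2.1⟩⟩

/-- the restricted free colours -/
def frS (s t : {s : Θ // s ∈ S}) : XS B S :=
  ⟨B.fr s.1 t.1, by
    rw [B.frL, B.frR]
    exact ⟨s.2, t.2⟩⟩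

theorem univS : Universal (cS B S)
    (fun a b => frS B S ⟨B.L a.1, a.2.1⟩ ⟨B.L b.1, b.2.1⟩) M := by
  intro n d hd
  obtain ⟨f, hf, hc⟩ := B.univ n (fun i j => (d i j).1) (by
    intro m s hm hs hfr
    obtain ⟨v, hv⟩ := hd m s hm hs (by
      intro i j hij he
      exact hfr i j hij (congrArg Subtype.val he))
    exact ⟨fun i => (v i).1, fun i j hij => congrArg Subtype.val (hv i j hij)⟩)
  have hS : ∀ i, B.vt (f i) ∈ S := by
    intro i
    rw [← B.left (f i) (f i), hc i i le_rfl]
    exact (d i i).2.1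
  exact ⟨fun i => ⟨f i, hS i⟩, fun i j hij => hf hij, fun i j hij => Subtype.ext (hc i j hij)⟩

/-- the restriction of a coloured linear order to a nonempty set of types of vertices -/
def subBs (hS : S.Nonempty) : Bs (VS B S) (XS B S) {s : Θ // s ∈ S} M where
  c := cS B S
  vt := fun x => ⟨B.vt x.1, x.2⟩
  L := fun t => ⟨B.L t.1, t.2.1⟩
  Rt := fun t => ⟨B.Rt t.1, t.2.2⟩
  inv := invS B S
  fr := frS B S
  finX := by
    have := B.finX
    exact inferInstance
  finT := by
    have := B.finT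
    exact inferInstance
  ne := by
    obtain ⟨s, hs⟩ := hS
    obtain ⟨x, rfl⟩ := B.surjT s
    exact ⟨⟨x, hs⟩⟩
  four := B.four
  left := fun x y => Subtype.ext (B.left x.1 y.1)
  right := fun x y => Subtype.ext (B.right x.1 y.1)
  sym := fun x y => Subtype.ext (B.sym x.1 y.1)
  diag := fun x => Subtype.ext (B.diag x.1)
  surjX := by
    intro t
    obtain ⟨x, y, h⟩ := B.surjX t.1
    refine ⟨⟨x, ?_⟩, ⟨y, ?_⟩, Subtype.ext h⟩
    · rw [← B.left x y, h]
      exact t.2.1
    · rw [← B.right x y, h]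
      exact t.2.2
  surjT := by
    intro s
    obtain ⟨x, h⟩ := B.surjT s.1
    exact ⟨⟨x, by rw [h]; exact s.2⟩, Subtype.ext h⟩
  frI := fun s t => Subtype.ext (B.frI s.1 t.1)
  frL := fun s t => Subtype.ext (B.frL s.1 t.1)
  frR := fun s t => Subtype.ext (B.frR s.1 t.1)
  univ := univS B S

end sub

theorem pf_SUB : T_SUB := by
  intro V X Θ _ M B S hS
  exact ⟨subBs B S hS, fun _ _ => rfl, fun _ => rfl, fun _ _ => rfl, fun _ => rfl, fun _ => rfl,
    fun _ => rfl⟩

end Pool.Agent.H36.SO
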